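import Pool.Agent.N343.AS.Stm

/-!
Project AS (helper343), part EXI: existence of the series built in levels, by helper602.
-/

set_option autoImplicit false

open Filter Topology MeasureTheory Finset

namespace Pool.Agent.N602.AS.EXI

open Pool.Agent.N343.AS

theorem MM_pos (A : ℕ → ℕ) (N : ℕ) : 0 < MM A N := by
  cases N with
  | zero => simp [MM]
  | succ N =>
    have : 0 < 2 ^ (N + 1) := by positivity
    simp only [MM]
    omega

theorem st_succ (n A : ℕ → ℕ) (N : ℕ) : st n A (N + 1) = st n A N + (n N + 2 * MM A N) := by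
  unfold st
  rw [sum_range_succ]

theorem st_mono (n A : ℕ → ℕ) : StrictMono (st n A) := by
  apply strictMono_nat_of_lt_succ
  intro N
  rw [st_succ]
  have := MM_pos A N
  omega

/-- the level of an index -/
def lev (n A : ℕ → ℕ) (m : ℕ) : ℕ := Nat.findGreatest (fun N => st n A N ≤ m) m

theorem lev_eq (n A : ℕ → ℕ) (N k : ℕ) (hk : k < n N + 2 * MM A N) : lev n A (st n A N + k) = N := by
  unfold lev
  rw [Nat.findGreatest_eq_iff]
  refine ⟨?_, fun _ => Nat.le_add_right _ _, ?_⟩
  · have h1 := (st_mono n A).le_apply (x := N)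
    omega
  · intro N' h1 _ h3
    have h4 : st n A (N + 1) ≤ st n A N' := (st_mono n A).monotone h1
    rw [st_succ] at h4
    omega

/-- the series -/
noncomputable def ser (n : ℕ → ℕ) (c : ℕ → ℕ → ℝ) (X : ℕ → ℝ) (A : ℕ → ℕ) (m : ℕ) : ℝ × ℝ :=
  if m - st n A (lev n A m) < n (lev n A m) then (c (lev n A m) (m - st n A (lev n A m)), 0)
  else ((-1) ^ (m - st n A (lev n A m) - n (lev n A m)) * X (lev n A m),
    (-1) ^ (m - st n A (lev n A m) - n (lev n A m)) * (1 / 2) ^ (lev n A m))

theorem main : S_EXI := by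
  intro n c X A
  refine ⟨ser n c X A, fun N => ⟨fun k hk => ?_, fun k hk => ?_⟩⟩
  · have h1 := lev_eq n A N k (by omega)
    unfold ser
    rw [h1, Nat.add_sub_cancel_left, if_pos hk]
  · have h1 := lev_eq n A N (n N + k) (by omega)
    rw [← Nat.add_assoc] at h1
    unfold ser
    rw [h1]
    have h2 : st n A N + n N + k - st n A N = n N + k := by omega
    rw [h2, if_neg (by omega), Nat.add_sub_cancel_left]

end Pool.Agent.N602.AS.EXI
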